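import Pool.Agent.N856.MT.Fin2

/-!
# The conjecture of Birch and Swinnerton-Dyer modulo 2 over abelian number fields

`C_l` is one of the curves `X_0(15) : y² = x (x + 9) (x - 16)`, `C_17 : y² = x (x + 1) (x - 16)` (conductor
17), `X_0(21) : y² = x (x - 9) (x + 7)`, `X_0(24) : y² = x (x - 1) (x + 3)` without complex multiplication,
`E_d` its quadratic twist by the squarefree integer `d`, and `K` is ANY abelian number field (a subfield of
a cyclotomic field), of any degree. `ModTwo (E_d / K)` says: `E_d(K)` has even rank, and every analytic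
continuation of `L(E_d/K, s)` (the complete Euler product of minimal models, as in the frozen statement
`S16693`) to a connected open set, which contains `1` and the half plane `Re s > 3/2`, has an even (finite)
order at `1`; such continuations exist: `L(E_d/K, s)` is meromorphic in the plane and analytic at `1`.

1. Criterion: `ModTwo (E_d / K)` if `E_(c d)(ℚ)` is finite and `L(E_(c d), 1) ≠ 0` for all `c` with
`√c ∈ K` (`c = 1` included). For `l = 17` it is enough that `E_(c d)(ℚ)` is finite and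
`Ш(E_(c d)/ℚ)[2] = 0`, and for the allowed twists of `l = 15, 21, 24` that the class groups of the `ℚ(√(cd))`
have no element of order four. The point is that nothing is assumed on the other characters of `K`: the
corresponding `L(E_d, χ, 1)` may vanish and the ranks may be positive.

2. Let `η = ∏ (1 - 2^{-i}) = 0.288…` and `θ = ∏ (1 - 2^{-(2i-1)}) = 0.419…`. For the proportion `θ/2` (20.97
percent) of all squarefree `d` the conjecture modulo 2 is true for the twist `E_d` of `C_17` over ALL abelian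
fields without quadratic subfield at the same time (for instance all abelian fields of odd degree); for the
proportion `θ/2` of all squarefree `c` it is true for `C_17` itself over ALL abelian fields whose only
quadratic subfield is `ℚ(√c)`. For every `ε > 0` there is a finite set `C` such that for all but the proportion
`ε` of all squarefree `d` one of the `c` in `C` is such that it is true for the twists by `c d` of `X_0(15)`,
`X_0(21)`, `X_0(24)` over ALL abelian fields without quadratic subfield.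

3. Let `T` be any finite set of positive squarefree `c`. If the `c` are `1` modulo `4` and prime to `15`, then
for the proportion at least `η^#T / 144` of all squarefree `d` of both signs the conjecture modulo 2 is true
for the twist `E_d` of `X_0(15)` over ALL abelian fields whose quadratic subfields are `ℚ(√c)`, `c` in `T`
(`1` in `T`), at the same time. The same for `X_0(21)`, `X_0(24)`, and for the three curves at the same time.

4. The general form of 3: any residue classes.

5. So for every abelian field `K` whose quadratic subfields are real and unramified at `2, 3, 5` the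
conjecture modulo 2 is true for a positive proportion of the twists of `X_0(15)` over `K`; similar
statements for `X_0(21)` and `X_0(24)`.

Proof: the characters of `K` of order greater than two come in complex conjugate pairs, on the side of the
`L`-functions and on the side of the rational representation `E(K) ⊗ ℚ` of the Galois group; this reduces
the conjecture to the quadratic subfields, where it follows from the simultaneous theorems for
arbitrarily many quadratic twists (problem `MP_696deb_nt`, `ArbitrarilyManyTwists`, `Conductor17`: joint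
work of many helpers, see there; almost all twists: helper963).

The leaves of this file: helpers 163, 55, 348 (the rank), 400 (characters), 955 (the Euler product), 482
(twisted `L`-functions), 595, 134, 849 (analytic lemmas), 432 (twists), 704, 227, 395, 814 (the coefficients
of the four curves, from the modularity files of helpers 704, 870, 877 and others), 433,
333, 341 (Euler products over number fields), 878 (density tools); engine and this file: helper856.
-/

set_option autoImplicit false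

open Filter Topology NumberField

namespace Pool.Agent.Results.MP_413b36_nt.AbelianFields

/-- the coefficient `a` of the twist `E_d : y² = x³ + a x + b` by `d` of the curve `C_l` -/
def A (l : ℕ) (d : ℤ) : ℤ :=
  if l = 15 then -12987 * d ^ 2 else if l = 17 then -91 * d ^ 2
  else if l = 21 then -5211 * d ^ 2 else -351 * d ^ 2

/-- the coefficient `b` of the twist `E_d : y² = x³ + a x + b` by `d` of the curve `C_l` -/
def B (l : ℕ) (d : ℤ) : ℤ :=
  if l = 15 then -263466 * d ^ 3 else if l = 17 then -330 * d ^ 3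
  else if l = 21 then -31050 * d ^ 3 else 1890 * d ^ 3

/-- the curve `E_d` over the field `K` -/
def E (K : Type) [Field K] (l : ℕ) (d : ℤ) : WeierstrassCurve K :=
  { a₁ := 0, a₂ := 0, a₃ := 0, a₄ := (A l d : K), a₆ := (B l d : K) }

/-! ### the conjecture modulo 2 over a number field -/

section
variable {K : Type} [Field K] [NumberField K]

/-- `M P` is an integral model of `E/K` which is minimal at `P`, for all primes `P ≠ 0` -/
def Minimal (E : WeierstrassCurve K)
    (M : {P : Ideal (𝓞 K) // P.IsPrime ∧ P ≠ ⊥} → WeierstrassCurve (𝓞 K)) : Prop :=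
  ∀ P, (∃ C : WeierstrassCurve.VariableChange K, C • E = (M P).map (algebraMap (𝓞 K) K)) ∧
    ∀ W : WeierstrassCurve (𝓞 K),
      (∃ C : WeierstrassCurve.VariableChange K, C • E = W.map (algebraMap (𝓞 K) K)) →
      ∀ n : ℕ, (M P).Δ ∈ P.1 ^ n → W.Δ ∈ P.1 ^ n

open Classical in
/-- the Euler product `L(E/K, s)` over all primes of `K`, from minimal models -/
noncomputable def Lser (M : {P : Ideal (𝓞 K) // P.IsPrime ∧ P ≠ ⊥} → WeierstrassCurve (𝓞 K))
    (s : ℂ) : ℂ :=
  ∏' P : {P : Ideal (𝓞 K) // P.IsPrime ∧ P ≠ ⊥},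
    (1 - ((Nat.card (𝓞 K ⧸ P.1) : ℂ)
          - (Nat.card {xy : (𝓞 K ⧸ P.1) × (𝓞 K ⧸ P.1) //
              ((M P).map (Ideal.Quotient.mk P.1)).toAffine.Equation xy.1 xy.2} : ℂ))
        * (Nat.card (𝓞 K ⧸ P.1) : ℂ) ^ (-s)
      + (if (M P).Δ ∈ P.1 then 0 else (Nat.card (𝓞 K ⧸ P.1) : ℂ) ^ (1 - 2 * s)))⁻¹

open Classical in
/-- the conjecture of Birch and Swinnerton-Dyer modulo 2 for `E/K`, both numbers being even, together
with the meromorphic continuation of `L(E/K, s)` -/
def ModTwo (E : WeierstrassCurve K) : Prop :=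
  (∃ M, Minimal E M) ∧ Even (Module.finrank ℤ E.toAffine.Point) ∧
  ∀ M : {P : Ideal (𝓞 K) // P.IsPrime ∧ P ≠ ⊥} → WeierstrassCurve (𝓞 K), Minimal E M →
    (∃ Λ : ℂ → ℂ, (∀ s, MeromorphicAt Λ s) ∧ AnalyticAt ℂ Λ 1 ∧
      ∀ s : ℂ, 3 / 2 < s.re → Λ s = Lser M s) ∧
    ∀ (U : Set ℂ) (f : ℂ → ℂ), IsOpen U → IsConnected U → (1 : ℂ) ∈ U →
      {s : ℂ | 3 / 2 < s.re} ⊆ U → AnalyticOnNhd ℂ f U →
      (∀ s : ℂ, 3 / 2 < s.re → f s = Lser M s) →
      ∃ k : ℕ, analyticOrderAt f 1 = ((2 * k : ℕ) : ℕ∞)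

end

/-- the conjecture modulo 2 holds for `E_d` over all the abelian number fields (the subfields of the
cyclotomic fields) whose quadratic subfields are `ℚ(√c)` with `c` in `T`, where `1` is in `T` -/
def OverAbelian (T : Set ℤ) (l : ℕ) (d : ℤ) : Prop :=
  ∀ (n : ℕ) [NeZero n] (L : Type) [Field L] [NumberField L] [IsCyclotomicExtension {n} ℚ L]
    (K : IntermediateField ℚ L),
    (∀ c : ℤ, Squarefree c → (∃ x : K, x ^ 2 = (c : K)) → c ∈ T) → ModTwo (E K l d)

/-! ### the conditions over `ℚ` -/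

/-- the central value of the `L`-function of `y² = x³ + a x + b` over `ℚ` is not zero -/
def ValueNonzero (a b : ℤ) : Prop :=
  4 * a ^ 3 + 27 * b ^ 2 ≠ 0 ∧
    ∃ F : ℂ → ℂ, Differentiable ℂ F ∧
      (∀ s : ℂ, (3 : ℝ) / 2 < s.re →
        HasProd
          (fun p : ℕ => open Classical in
            if p.Prime ∧ ¬ ((p : ℤ) ∣ 2 * (-4 * a ^ 3 - 27 * b ^ 2)) then
              (1 - ((p : ℂ) - (Nat.card {q : ZMod p × ZMod p //
                  q.2 ^ 2 = q.1 ^ 3 + (a : ZMod p) * q.1 + (b : ZMod p)} : ℂ))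
                  * (p : ℂ) ^ (-s) + (p : ℂ) ^ (1 - 2 * s))⁻¹
            else 1)
          (F s)) ∧ F 1 ≠ 0

/-- `E_d(ℚ)` is finite and `Ш(E_d/ℚ)` has no element of order two -/
def RankZeroShaTwo (l : ℕ) (d : ℤ) : Prop :=
  Finite (E ℚ l d).toAffine.Point ∧ ∀ x : Pool.Agent.TH841.SH.D.Sha (E ℚ l d), 2 • x = 0 → x = 0

/-- the class group of `ℚ(√d)` has no element of order four -/
def NoOrderFour (d : ℤ) : Prop :=
  ∀ (K : Type) [Field K] [NumberField K], Module.finrank ℚ K = 2 →
    (∃ s : K, s ^ 2 = (d : K)) →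
    ∀ c : ClassGroup (NumberField.RingOfIntegers K), orderOf c ≠ 4

/-- the twist of `X_0(l)` by `d` is allowed: `d ≡ 1 mod 4` is negative and, in `ℚ(√d)`,
* `l = 15`, `3` is not inert and `5` is not split, or
* `l = 21`, `3` is not split and `7` is not inert, or
* `l = 24`, `2` is inert and `3` is not inert. -/
def Allowed (l : ℕ) (d : ℤ) : Prop := d < 0 ∧ d % 4 = 1 ∧
  ((l = 15 ∧ d % 3 ≠ 2 ∧ (d % 5 = 0 ∨ d % 5 = 2 ∨ d % 5 = 3)) ∨
    (l = 21 ∧ d % 3 ≠ 1 ∧ (d % 7 = 0 ∨ d % 7 = 1 ∨ d % 7 = 2 ∨ d % 7 = 4)) ∨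
    (l = 24 ∧ d % 3 ≠ 2 ∧ d % 8 = 5))

/-- the squarefree part of `c d` for squarefree `c` and `d`; `E_(tw c d)` is the twist by `√c` of
`E_d` -/
def tw (c d : ℤ) : ℤ := c * d / ((Int.gcd c d : ℕ) : ℤ) ^ 2

/-! ### proportions -/

/-- the limit `(1 - 1/2) (1 - 1/4) (1 - 1/8) ⋯` -/
noncomputable def eta : ℝ := ∏' i : ℕ, (1 - (1 / 2 : ℝ) ^ (i + 1))

/-- the limit `(1 - 1/2) (1 - 1/8) (1 - 1/32) ⋯` -/
noncomputable def theta : ℝ := ∏' i : ℕ, (1 - (1 / 2 : ℝ) ^ (2 * i + 1))

open Classical in
/-- the number of the `m ≤ X` with the property `P` -/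
noncomputable def count (P : ℕ → Prop) (X : ℕ) : ℕ := ((Finset.Icc 1 X).filter fun m => P m).card

open Classical in
/-- the number of the squarefree integers `d` of any sign with `|d| < X` and the property `P` -/
noncomputable def countZ (P : ℤ → Prop) (X : ℕ) : ℕ :=
  ((Finset.Ioo (-(X : ℤ)) X).filter fun d => Squarefree d ∧ P d).card

/-- the (lower) proportion of the squarefree integers `d` of both signs with the property `P` is at
least `δ` -/
def Proportion (δ : ℝ) (P : ℤ → Prop) : Prop :=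
  ∀ ε : ℝ, 0 < ε → ∀ᶠ X : ℕ in atTop,
    (δ - ε) * (countZ (fun _ => True) X : ℝ) ≤ (countZ P X : ℝ)

/-- the finite set `T` as a set of integers -/
def toSet (T : Finset ℕ) : Set ℤ := {c : ℤ | ∃ m ∈ T, c = (m : ℤ)}

/-- **The conjecture of Birch and Swinnerton-Dyer modulo 2 over abelian number fields.** -/
theorem result :
    -- 1. the criterion
    (∀ (l : ℕ) (d : ℤ) (T : Set ℤ), Squarefree d →
      (l ∈ ({15, 17, 21, 24} : Finset ℕ) → (∀ c ∈ T, Squarefree c →
        Finite (E ℚ l (tw c d)).toAffine.Point ∧ ValueNonzero (A l (tw c d)) (B l (tw c d))) →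
          OverAbelian T l d) ∧
      (l = 17 → (∀ c ∈ T, Squarefree c → RankZeroShaTwo 17 (tw c d)) → OverAbelian T l d) ∧
      ((∀ c ∈ T, Squarefree c → Allowed l (tw c d) ∧ NoOrderFour (tw c d)) →
        OverAbelian T l d)) ∧
    -- 2. all abelian fields with at most one quadratic subfield
    (Proportion (theta / 2) (OverAbelian {1} 17) ∧
      Proportion (theta / 2) (fun c => OverAbelian {1, c} 17 1) ∧
      ∀ ε : ℝ, 0 < ε → ∃ C : Finset ℤ, (∀ c ∈ C, Squarefree c) ∧
        ∀ᶠ X : ℕ in atTop, (1 - ε) * (countZ (fun _ => True) X : ℝ) ≤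
          (countZ (fun d => ∃ c ∈ C, ∀ l ∈ ({15, 21, 24} : Finset ℕ),
            OverAbelian {1} l (tw c d)) X : ℝ)) ∧
    -- 3. all abelian fields whose quadratic subfields are in a given finite set
    (∀ T : Finset ℕ, (∀ c ∈ T, Squarefree c) →
      ((∀ c ∈ T, c % 4 = 1 ∧ c % 3 ≠ 0 ∧ c % 5 ≠ 0) →
        Proportion (eta ^ T.card / 144) (OverAbelian (toSet T) 15)) ∧
      ((∀ c ∈ T, c % 4 = 1 ∧ c % 3 ≠ 0 ∧ c % 7 ≠ 0) →
        Proportion (eta ^ T.card / 192) (OverAbelian (toSet T) 21)) ∧
      ((∀ c ∈ T, c % 8 = 1 ∧ c % 3 ≠ 0) →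
        Proportion (eta ^ T.card / 48) (OverAbelian (toSet T) 24)) ∧
      ((∀ c ∈ T, c % 8 = 1 ∧ c % 3 ≠ 0 ∧ c % 5 ≠ 0 ∧ c % 7 ≠ 0) →
        Proportion (eta ^ T.card / 2304)
          (fun d => ∀ l ∈ ({15, 21, 24} : Finset ℕ), OverAbelian (toSet T) l d)) ∧
      ((∀ c ∈ T, c % 840 = 1) → Proportion (7 / 1024 * eta ^ T.card)
        (fun d => ∀ l ∈ ({15, 21, 24} : Finset ℕ), OverAbelian (toSet T) l d))) ∧
    -- 4. the general form of 3
    (∀ (D : Finset (ℕ × ℕ)) (M : ℕ) (R : Finset ℕ), 0 < M →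
      (∀ x ∈ D, Squarefree x.2 ∧ x.2 % 2 = 1) →
      (∀ n : ℕ, Squarefree n → n % M ∈ R → ∀ x ∈ D, Allowed x.1 (tw x.2 (-(n : ℤ)))) →
      (∃ n : ℕ, Squarefree n ∧ n % M ∈ R) → ∀ ε : ℝ, 0 < ε → ∀ᶠ X : ℕ in atTop,
        (eta ^ (D.image Prod.snd).card - ε) *
            (count (fun n => Squarefree n ∧ n % M ∈ R) X : ℝ) ≤
          (count (fun n => (Squarefree n ∧ n % M ∈ R) ∧ ∀ l : ℕ,
            OverAbelian {c : ℤ | ∃ m : ℕ, (l, m) ∈ D ∧ c = m} l (-(n : ℤ))) X : ℝ)) ∧
    -- 5. a fixed abelian field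
    (∀ (n : ℕ) [NeZero n] (L : Type) [Field L] [NumberField L] [IsCyclotomicExtension {n} ℚ L]
      (K : IntermediateField ℚ L),
      ((∀ c : ℤ, Squarefree c → (∃ x : K, x ^ 2 = (c : K)) → 0 < c ∧ c % 4 = 1 ∧ c % 3 ≠ 0 ∧
        c % 5 ≠ 0) → ∃ δ : ℝ, 0 < δ ∧ Proportion δ (fun d => ModTwo (E K 15 d))) ∧
      ((∀ c : ℤ, Squarefree c → (∃ x : K, x ^ 2 = (c : K)) → 0 < c ∧ c % 4 = 1 ∧ c % 3 ≠ 0 ∧
        c % 7 ≠ 0) → ∃ δ : ℝ, 0 < δ ∧ Proportion δ (fun d => ModTwo (E K 21 d))) ∧
      ((∀ c : ℤ, Squarefree c → (∃ x : K, x ^ 2 = (c : K)) → 0 < c ∧ c % 8 = 1 ∧ c % 3 ≠ 0) →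
        ∃ δ : ℝ, 0 < δ ∧ Proportion δ (fun d => ModTwo (E K 24 d)))) ∧
    0.2887 < eta ∧ eta < 0.2889 ∧ 0.4194 < theta ∧ theta < 0.4195 :=
  Pool.Agent.N856.MT.Main.main2

end Pool.Agent.Results.MP_413b36_nt.AbelianFields
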