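import Pool.Agent.N683.H2.Par2
import Pool.Agent.N683.H2.Res
import Pool.Agent.N19.BR.M2

/-!
# The conjecture of Birch and Swinnerton-Dyer modulo 2: equivalence with the case of large rank

`K` is a number field, `E` an elliptic curve over `K` with `j(E) ≠ 0, 1728`, `L` a finite Galois
extension of `K`, for example `L = K(E[N])`, `S` a finite set of primes of `K` and `R` a natural number.

The proof.  Let `p` be a prime number and `U` a group of automorphisms of the algebraic closure over `K`
such that all finite images of `U` have a cyclic normal subgroup whose order is prime to `p` and whose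
index is a power of `p`.  Then `E` has infinite rank over the fixed field `F` of `U`.  For odd `p` see
`Pool.Agent.N683.HR`; for `p = 2` (`Pool.Agent.N683.H2`) the three points of `E : y² = f(x)` on a line
`y = t x + n` over `F` are permuted by `U`; if none is fixed the image in the symmetric group is
transitive, and then the field of the square root of the discriminant `D(t, n)` of `f(x) - (t x + n)²` is
unique.  On a rational curve `n = N(t)/W(t)`, constructed over a field with a fixed abscissa of a 3-torsion
point or with a fixed factorisation of the 3-division polynomial into two quadratic polynomials, `D` is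
`α t² + β` up to squares, and the values of this form lie in two different classes modulo squares, or `F`
is pythagorean; so on one of two explicit families every line contains a point of `E(F)`, which is chosen
`𝔭`-adically so that no multiple is defined over a given finite extension.  By compactness the rank is at
least `R` over the fixed fields of all `p`-hyperelementary subgroups of the Galois group of a suitable
finite extension of `K`, and Brauer induction gives a relation `∑ e_i [F_i] = [K]` between the permutation
characters of such fields, respectively `∑ e_i [F_i] = m [K]` with an odd integer `m` if only `p = 2` is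
admitted.  It is combined with the relations with local conditions and with the relations for the ranks
and for the orders of the `L`-functions of `Pool.Agent.N19.BR`.

The definitions are in `Pool.Agent.N19.BR.M2Defs`, `PDefs` and `Defs`; a `Pool.Agent.R433.MD.Ext K` is a
number field with the structure of a `K`-algebra.
-/

set_option autoImplicit false

namespace Pool.Agent.Results.MP_413b36_nt.LargeRankModTwo

open NumberField IsDedekindDomain
open Pool.Agent.R433.MD (Ext)
open Pool.Agent.N19.BR.Def Pool.Agent.N19.BR.FDef Pool.Agent.N19.BR.M2Def
open scoped Classical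

/-- The rank of the elliptic curve `E` over `K` over the extension `F = Z.F` of `K` is at least `R`. -/
def RankAtLeast {K : Type} [Field K] [NumberField K] (R : ℕ) (E : WeierstrassCurve K) (Z : Ext K) :
    Prop :=
  (R : Cardinal) ≤ Module.rank ℤ (E.map (algebraMap K Z.F)).toAffine.Point

/-- The set `U` is connected and contains `1` and the half plane `Re s > 3/2`. -/
def Region (U : Set ℂ) : Prop := IsPreconnected U ∧ 1 ∈ U ∧ ∀ s : ℂ, 3 / 2 < s.re → s ∈ U

/-- The conjecture modulo 2 with the meromorphic continuation, for one elliptic curve: `E(F)` has finite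
rank, `L(E/F, s)` has a meromorphic continuation to `U`, and its order at `s = 1` has the same parity as
the rank. -/
def Holds {F : Type} [Field F] [NumberField F] (U : Set ℂ) (E : WeierstrassCurve F) : Prop :=
  Continued U E ∧ ModTwo U E

/-- The list of fields of the first part: rank at least `R`, `2`-hyperelementary Galois groups and local
degrees divisible by `n`. -/
def Reduction {K : Type} [Field K] [NumberField K] (E : WeierstrassCurve K) (L : Type) [Field L]
    [Algebra K L] (S : Set (HeightOneSpectrum (𝓞 K))) (n R : ℕ) : Prop :=
  ∃ (N : ℕ) (Z : Fin N → Ext K) (J : Finset (Fin N)),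
    (∀ j, RankAtLeast R E (Z j) ∧ TwoClass L S n (Z j)) ∧
      ∀ U : Set ℂ, Region U → ModTwoFormula U E Z J ∧
        ((∀ j, Continued U (E.map (algebraMap K (Z j).F))) →
          (∀ j ∈ J, ModTwo U (E.map (algebraMap K (Z j).F))) → ModTwo U E)

/-- The list of fields of the second part: rank at least `R`, `p_j`-hyperelementary Galois groups, the
part of `n` prime to `p_j` divides the local degrees. -/
def ReductionOne {K : Type} [Field K] [NumberField K] (E : WeierstrassCurve K) (L : Type) [Field L]
    [Algebra K L] (S : Set (HeightOneSpectrum (𝓞 K))) (n R : ℕ) : Prop :=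
  ∃ (N : ℕ) (Z : Fin N → Ext K) (J : Finset (Fin N)),
    (∀ j, RankAtLeast R E (Z j) ∧ HyperelementaryClass L S n (Z j)) ∧
      ∀ U : Set ℂ, Region U → ModTwoFormula U E Z J ∧
        ((∀ j, Holds U (E.map (algebraMap K (Z j).F))) → Holds U E)

/-- **The conjecture of Birch and Swinnerton-Dyer modulo 2 and elliptic curves of large rank.**

(1) Let `E` be an elliptic curve over a number field `K` with `j(E) ≠ 0, 1728`, `L/K` a finite Galois
extension, `S` a finite set of primes of `K`, `n` an odd positive integer and `R` a natural number.
There is a finite list of number fields `F_j ⊇ K` such that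
* `E(F_j)` has rank at least `R`;
* the Galois groups of `L F_j / F_j` are `2`-hyperelementary, and `n` divides the local degrees of all
  `F_j / K` at the primes above `S`;
* for a set `J` of indices and all connected `U` containing `1` and the half plane `Re s > 3/2`, for example
  `U = ℂ`, `ord_{s=1} L(E/K,s) - rk E(K) ≡ ∑_{j ∈ J} (ord_{s=1} L(E/F_j,s) - rk E(F_j))` modulo 2 for all
  meromorphic continuations to `U`; so if all `L(E/F_j,s)` have such continuations and the conjecture
  modulo 2 holds for `E` over the fields `F_j`, `j ∈ J`, then it holds for `E` over `K`.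

(2) For `E`, `L`, `S`, `R` as in (1) and any `n ≥ 1` there is a finite list of number fields `F_j ⊇ K` such
that `E(F_j)` has rank at least `R`, the Galois group of `L F_j / F_j` is `p_j`-hyperelementary for a
prime number `p_j`, the part of `n` prime to `p_j` divides the local degrees of `F_j / K` above `S`,
`F_j` has at most two real places if `p_j ≠ 2`, the same formula modulo 2 holds for a set `J` of indices,
and for all such `U`: if the `L(E/F_j,s)` continue meromorphically to `U` and the conjecture modulo 2
holds for `E` over all `F_j`, then `L(E/K,s)` continues meromorphically to `U` and the conjecture modulo 2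
holds for `E` over `K`.

(3) For every natural number `R` and every such `U`: the conjecture modulo 2 (with the meromorphic
continuation to `U`) holds for all elliptic curves over all number fields if and only if it holds for those
of rank at least `R` and for those with `j = 0` or `j = 1728`. -/
theorem result :
    (∀ (K : Type) [Field K] [NumberField K] (E : WeierstrassCurve K) [E.IsElliptic],
      E.j ≠ 0 → E.j ≠ 1728 → ∀ (L : Type) [Field L] [NumberField L] [Algebra K L]
      [IsGalois K L] (S : Set (HeightOneSpectrum (𝓞 K))), S.Finite → ∀ n : ℕ,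
      (Odd n → ∀ R : ℕ, Reduction E L S n R) ∧ (n ≠ 0 → ∀ R : ℕ, ReductionOne E L S n R)) ∧
    ∀ (R : ℕ) (U : Set ℂ), Region U →
      ((∀ (K : Type) [Field K] [NumberField K] (E : WeierstrassCurve K) [E.IsElliptic],
        Holds U E) ↔
      ∀ (K : Type) [Field K] [NumberField K] (E : WeierstrassCurve K) [E.IsElliptic],
        ((R : Cardinal) ≤ Module.rank ℤ E.toAffine.Point ∨ E.j = 0 ∨ E.j = 1728) →
        Holds U E) := by
  have main1 : ∀ (K : Type) [Field K] [NumberField K] (E : WeierstrassCurve K) [E.IsElliptic],
      E.j ≠ 0 → E.j ≠ 1728 → ∀ (L : Type) [Field L] [NumberField L] [Algebra K L]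
      [IsGalois K L] (S : Set (HeightOneSpectrum (𝓞 K))), S.Finite → ∀ n : ℕ,
      Odd n → ∀ R : ℕ, Reduction E L S n R := by
    intro K _ _ E hE h0 h1728 L _ _ _ _ S hS n hn R
    obtain ⟨N, Z, e, m, hm, hrel, hZ⟩ :=
      Pool.Agent.N683.H2.list_two2 E hE h0 h1728 L hS hn R
    refine ⟨N, Z, Finset.univ.filter fun i => Odd (e i), fun j => ⟨(hZ j).2, (hZ j).1⟩,
      fun U hU => ?_⟩
    have h := Pool.Agent.N19.BR.modTwo_formula hm hrel hU.1 hU.2.2 hU.2.1 hE
    exact ⟨by convert h, fun h2 h3 => Pool.Agent.N19.BR.modTwo_of_formula h h2 fun j hj =>
      h3 j (by convert hj)⟩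
  have main2 : ∀ (K : Type) [Field K] [NumberField K] (E : WeierstrassCurve K) [E.IsElliptic],
      E.j ≠ 0 → E.j ≠ 1728 → ∀ (L : Type) [Field L] [NumberField L] [Algebra K L]
      [IsGalois K L] (S : Set (HeightOneSpectrum (𝓞 K))), S.Finite → ∀ n : ℕ,
      n ≠ 0 → ∀ R : ℕ, ReductionOne E L S n R := by
    intro K _ _ E hE h0 h1728 L _ _ _ _ S hS n hn R
    obtain ⟨N, Z, e, hrel, hZ⟩ := Pool.Agent.N683.H2.list_one K E hE h0 h1728 L S hS n hn R
    refine ⟨N, Z, Finset.univ.filter fun i => Odd (e i), hZ, fun U hU => ?_⟩
    have h := Pool.Agent.N19.BR.modTwo_formula odd_one hrel hU.1 hU.2.2 hU.2.1 hE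
    refine ⟨by convert h, fun h2 => ⟨⟨?_, ?_⟩, Pool.Agent.N19.BR.modTwo_of_formula h
      (fun j => (h2 j).1) fun j _ => (h2 j).2⟩⟩
    · have h3 : ∀ j, ∃ r : ℕ, Module.rank ℤ (E.map (algebraMap K (Z j).F)).toAffine.Point = r :=
        fun j => (h2 j).1.1
      choose r hr using h3
      obtain ⟨r0, h4, -⟩ := Pool.Agent.N19.BR.rank_of_rel' one_ne_zero hrel E hr
      exact ⟨r0, h4⟩
    · exact Pool.Agent.N683.HR.cont_of_rel hrel hE fun j => (h2 j).1.2
  refine ⟨fun K _ _ E _ h0 h1 L _ _ _ _ S hS n => ⟨main1 K E h0 h1 L S hS n,
    main2 K E h0 h1 L S hS n⟩, fun R U hU => ⟨fun h K _ _ E _ _ => h K E, fun h K _ _ E _ => ?_⟩⟩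
  by_cases h0 : E.j = 0
  · exact h K E (Or.inr (Or.inl h0))
  by_cases h1 : E.j = 1728
  · exact h K E (Or.inr (Or.inr h1))
  obtain ⟨N, Z, J, hZ, h2⟩ := main2 K E h0 h1 K ∅ Set.finite_empty 1 one_ne_zero R
  exact (h2 U hU).2 fun i => h (Z i).F _ (Or.inl (hZ i).1)

end Pool.Agent.Results.MP_413b36_nt.LargeRankModTwo
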