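import Pool.Agent.N19.BR.M2

/-!
# The conjecture of Birch and Swinnerton-Dyer modulo 2: a formula over fields with `2`-hyperelementary
Galois action and large odd local degrees

`K` is a number field, `L` a finite Galois extension of `K` and `S` a finite set of primes of `K`.

The proof.  There is a relation `∑ e_j [F_j] = m [K]` between the permutation characters of finite
extensions `F_j` of `K` with the properties below, with an odd integer `m` (`Pool.Agent.N19.BR`: Brauer
induction with denominators prime to `2`, refined by the relations for the splitting fields of the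
polynomials `(X^ℓ - a) h`, `ℓ` odd, `a` a uniformizer at the primes in `S` and `h` of degree `ℓ` and
irreducible modulo these primes).  It gives the relation `∑ e_j r_j = m r` for the ranks and, as
`L(E / K, s) ^ m` is the product of the functions `L(E / F_j, s) ^ {e_j}` up to finitely many factors
without zeros and poles at `s = 1`, for the orders at `s = 1`.  The terms with even `e_j` do not
contribute to the parity.

The definitions are in `Pool.Agent.N19.BR.M2Defs`, `PDefs` and `Defs`; a `Pool.Agent.R433.MD.Ext K` is a
number field with the structure of a `K`-algebra.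
-/

set_option autoImplicit false

namespace Pool.Agent.Results.MP_413b36_nt.ModTwoDescent

open NumberField IsDedekindDomain
open Pool.Agent.R433.MD (Ext)
open Pool.Agent.N19.BR.FDef Pool.Agent.N19.BR.M2Def

/-- **The conjecture of Birch and Swinnerton-Dyer modulo 2.**  Let `L/K` be a finite Galois extension of
number fields, `S` a finite set of primes of `K` and `n` an odd positive integer.  There is a finite list
of number fields `F_j ⊇ K` such that the Galois groups of `L F_j / F_j` are `2`-hyperelementary and `n`
divides the local degrees of all `F_j / K` at the primes above `S`, and a set `J` of indices, such that for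
all connected `U` containing `1` and the half plane `Re s > 3/2` and ALL elliptic curves `E` over `K`

`ord_{s=1} L(E/K,s) - rk E(K) ≡ ∑_{j ∈ J} (ord_{s=1} L(E/F_j,s) - rk E(F_j))` modulo 2

for all meromorphic continuations of the functions to `U`; so if all `L(E/F_j,s)` have such continuations
and the conjecture modulo 2 holds for `E` over the fields `F_j`, `j ∈ J`, then it holds for `E` over
`K`. -/
theorem result (K : Type) [Field K] [NumberField K] (L : Type) [Field L] [NumberField L]
    [Algebra K L] [IsGalois K L] (S : Set (HeightOneSpectrum (𝓞 K))) (hS : S.Finite) (n : ℕ)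
    (hn : Odd n) :
    ∃ (N : ℕ) (Z : Fin N → Ext K) (J : Finset (Fin N)), (∀ j, TwoClass L S n (Z j)) ∧
      ∀ U : Set ℂ, IsPreconnected U → (∀ s : ℂ, 3 / 2 < s.re → s ∈ U) → (1 : ℂ) ∈ U →
        ∀ E : WeierstrassCurve K, E.IsElliptic → ModTwoFormula U E Z J ∧
          ((∀ j, Continued U (E.map (algebraMap K (Z j).F))) →
            (∀ j ∈ J, ModTwo U (E.map (algebraMap K (Z j).F))) → ModTwo U E) := by
  classical
  obtain ⟨N, Z, e, m, hm, hrel, hZ⟩ := Pool.Agent.N19.BR.list_two K L hS hn
  refine ⟨N, Z, Finset.univ.filter fun i => Odd (e i), hZ, fun U hU hH h1 E hE => ?_⟩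
  have h := Pool.Agent.N19.BR.modTwo_formula hm hrel hU hH h1 hE
  exact ⟨by convert h, fun h2 h3 => Pool.Agent.N19.BR.modTwo_of_formula h h2 fun j hj =>
    h3 j (by convert hj)⟩

end Pool.Agent.Results.MP_413b36_nt.ModTwoDescent
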