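import Pool.Agent.N970.AVP.Mm
import Pool.Agent.N970.AVP.TotI

/-!
# The rank part of the Birch and Swinnerton-Dyer conjecture, and so the conjecture modulo 2, for quadratic
# twists of three modular curves over multiquadratic fields

The curves `C_0 = X_0(15) : y² = x (x + 9) (x - 16)`, `C_1 : y² = x (x + 1) (x - 16)` of conductor `17` and
`C_2 = X_0(21) : y² = x (x - 9) (x + 7)` are semistable and have no complex multiplication; `C_{j, m}` is the
twist of `C_j` by `m`. We consider the curves `C_{j, e}`, `e` any nonzero integer, and finite families of them,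
over the multiquadratic fields `K = ℚ(√d_1, …, √d_r)`, real or imaginary, of any degree `2 ^ r`. There is no
condition on `e`, on the `d_t`, or on coprimality.

Call a family `(C_{j_i, e_i})` good over `K` if the curves `C_{j_i, e_i d_T}` over `ℚ`, `d_T = ∏_{t ∈ T} d_t`,
which are the factors of the Weil restrictions from `K` to `ℚ`, have finitely many rational points and no
element of order two in the Tate-Shafarevich group.

(1) If the family is good over `K`, then for every curve `E = C_{j_i, e_i}` of the family `E(K)` is finite,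
`L(E/K, s)`, with all Euler factors (minimal models at all primes of `K`), has an analytic continuation to a
connected open set which contains `1` and the half plane `Re s > 3/2`, and every continuation to such a set
is not zero at `s = 1`. So order and rank are both zero and the congruence of Q1 holds. Moreover
`Ш(E/K)[2^∞]` is finite and killed by `2 ^ r`.
(2) *Random curves over `ℚ`.* The proportion of the good families over `ℚ` among all the families with
squarefree `e_i`, `|e_i| ≤ X`, tends to `∏_i δ_{j_i}`, `δ_0 = η / 2 = 0.1444…`, `δ_1 = c / 2 = 0.2097…`,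
`δ_2 = 137 η / 256 = 0.1545…`, where `η = ∏ (1 - 2^{-i})` and `c = ∏ (1 - 2^{-(2 i - 1)})`.
(3) *Random quadratic fields.* The proportion of the quadratic fields `K`, real or imaginary, ordered by
the discriminant, over which all the `C_j`, `j ∈ S`, are good is for every `S` exactly `δ_S`: `δ_j` if `S = {j}`,
`433 η c / 1728 = 0.0303…` if `S = {0, 1}`, `443 η / 3072 = 0.0416…` if `S = {0, 2}`,
`2461 η c / 9216 = 0.0323…` if `S = {1, 2}`, and `8065 η c / 110592 = 0.0088…` for the three curves at once.
(4) *Ideal classes.* For the imaginary quadratic fields `K` in which `3` is not inert and `5` is not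
split, `X_0(15)` is good over `K` if and only if `K` has no ideal class of order four; the same for `X_0(21)`
if `3` is not split and `7` is not inert. These are a proportion of exactly `η` of the fields of the family,
also for the fields with both conditions and both curves.
(5) *Random twists and random extensions.* For every `F = ℚ(√d_1, …, √d_r)` with squarefree
`d_t ≡ 1, 49 mod 60` and every family of twists `C_{0, - e_i}`, the `e_i` being up to squares squarefree
and `≡ 23, 47 mod 60`, the twist of the family by `√D` is good over `F` for the squarefree `D ≡ 1, 49 mod 60` of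
natural density exactly `η ^ c`, `c` the number of the different curves `C_{0, - e_i d_T}`; if the family
is good over `F`, it is good over `F(√D)` for `D` of the same density.

(1) rests on the theorems for one curve over `ℚ` (problem `MP_696deb_nt`, files `Conductor15`,
`Conductor17`, `Conductor21`, joint work of helpers 969, 877, 809, 970, 971, 972, 973, 974, 975, 99, 218,
402, 575, 637, 816, 844, 855, 871, 875, 878, 886, 890, 916, 919, 958 and others), on the factorization
of the `L`-function and the 2-primary part of `Ш` over multiquadratic fields (helpers 687, 723, 494, 413,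
841 and others) and on the library of helpers 433, 333 and 341 for minimal models over number fields; (5) is
due to helper856 (joint law of helpers 588, 763, 789, 814, 856); the densities for one curve are due to
helpers 916 and 919, the joint law of the three curves to helpers 809, 877, 963, 972, 975.
-/

set_option autoImplicit false

open NumberField IsDedekindDomain Filter Topology

namespace Pool.Agent.Results.MP_413b36_nt.TwistsOverMultiquadraticFields

/-- the coefficient `a` of the equation `y² = x³ + a x + b` of the twist by `m` of the curve `C_j` -/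
def A (j : Fin 3) (m : ℤ) : ℤ := (![-12987, -91, -5211] : Fin 3 → ℤ) j * m ^ 2

/-- the coefficient `b` of the equation `y² = x³ + a x + b` of the twist by `m` of the curve `C_j` -/
def B (j : Fin 3) (m : ℤ) : ℤ := (![-263466, -330, -31050] : Fin 3 → ℤ) j * m ^ 3

/-- the twist `C_{j, m}` by `m` of the curve `C_j`, over the field `K` -/
def E (K : Type) [Field K] (j : Fin 3) (m : ℤ) : WeierstrassCurve K :=
  { a₁ := 0, a₂ := 0, a₃ := 0, a₄ := (A j m : K), a₆ := (B j m : K) }

/-- `C_{j, m}(ℚ)` is finite and `Ш(C_{j, m}/ℚ)` has no element of order two -/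
def RankZeroShaTwo (j : Fin 3) (m : ℤ) : Prop :=
  Finite (E ℚ j m).toAffine.Point ∧ ∀ x : Pool.Agent.TH841.NF.D.Sha (E ℚ j m), 2 • x = 0 → x = 0

/-- `ℚ(√d_1, …, √d_r)` has degree `2 ^ r` -/
def Independent {r : ℕ} (d : Fin r → ℤ) : Prop :=
  ∀ T : Finset (Fin r), T.Nonempty → ¬ IsSquare (∏ t ∈ T, d t)

/-- `K = ℚ(√d_1, …, √d_r)` -/
def IsMultiquadratic {r : ℕ} (d : Fin r → ℤ) (K : Type) [Field K] [NumberField K] : Prop :=
  ∃ x : Fin r → K, (∀ t, x t ^ 2 = (d t : K)) ∧ IntermediateField.adjoin ℚ (Set.range x) = ⊤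

/-- the nonzero primes of `K` -/
abbrev Pr (K : Type) [Field K] [NumberField K] : Type := {P : Ideal (𝓞 K) // P.IsPrime ∧ P ≠ ⊥}

/-- for every prime `P` the equation `M P` of `E` with coefficients in `𝓞 K` is minimal at `P` -/
def Minimal {K : Type} [Field K] [NumberField K] (E : WeierstrassCurve K)
    (M : Pr K → WeierstrassCurve (𝓞 K)) : Prop :=
  ∀ P, (∃ C : WeierstrassCurve.VariableChange K, C • E = (M P).map (algebraMap (𝓞 K) K)) ∧
    ∀ W : WeierstrassCurve (𝓞 K),
      (∃ C : WeierstrassCurve.VariableChange K, C • E = W.map (algebraMap (𝓞 K) K)) →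
        ∀ n : ℕ, (M P).Δ ∈ P.1 ^ n → W.Δ ∈ P.1 ^ n

open Classical in
/-- the Euler product with all Euler factors -/
noncomputable def euler {K : Type} [Field K] [NumberField K] (M : Pr K → WeierstrassCurve (𝓞 K))
    (s : ℂ) : ℂ :=
  ∏' P : Pr K, (1 - ((Nat.card (𝓞 K ⧸ P.1) : ℂ) -
      (Nat.card {xy : (𝓞 K ⧸ P.1) × (𝓞 K ⧸ P.1) //
        ((M P).map (Ideal.Quotient.mk P.1)).toAffine.Equation xy.1 xy.2} : ℂ)) *
        (Nat.card (𝓞 K ⧸ P.1) : ℂ) ^ (-s) +
      (if (M P).Δ ∈ P.1 then 0 else (Nat.card (𝓞 K ⧸ P.1) : ℂ) ^ (1 - 2 * s)))⁻¹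

/-- `f` is an analytic continuation of `L(E/K, s)`, with all Euler factors, to the connected open set
`U`, which contains `1` and the half plane `Re s > 3/2` -/
def Continues {K : Type} [Field K] [NumberField K] (E : WeierstrassCurve K) (U : Set ℂ)
    (f : ℂ → ℂ) : Prop :=
  IsOpen U ∧ IsConnected U ∧ (1 : ℂ) ∈ U ∧ {s : ℂ | 3 / 2 < s.re} ⊆ U ∧ AnalyticOnNhd ℂ f U ∧
    ∃ M : Pr K → WeierstrassCurve (𝓞 K), Minimal E M ∧ ∀ s : ℂ, 3 / 2 < s.re → f s = euler M s

open Classical in
/-- the rank conjecture over `K` for the elliptic curve `E`, with the rank and the order zero, in the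
form of Q1: `E(K)` is finite, `L(E/K, s)` has an analytic continuation to a connected open set which
contains `1`, and every such continuation is not zero at `1`, so its order at `1` and the rank of
`E(K)` are congruent modulo `2`; and `Ш(E/K)[2^∞]` is finite and killed by `2 ^ r` -/
def RankPart {K : Type} [Field K] [NumberField K] (E : WeierstrassCurve K) (r : ℕ) : Prop :=
  Finite E.toAffine.Point ∧ Module.finrank ℤ E.toAffine.Point = 0 ∧ (∃ U f, Continues E U f) ∧
    (∀ U f, Continues E U f →
      f 1 ≠ 0 ∧ Even (analyticOrderNatAt f 1 + Module.finrank ℤ E.toAffine.Point)) ∧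
    {y : Pool.Agent.TH841.NF.D.Sha E | ∃ k : ℕ, (2 ^ k : ℕ) • y = 0}.Finite ∧
      ∀ (k : ℕ) (y : Pool.Agent.TH841.NF.D.Sha E), (2 ^ k : ℕ) • y = 0 → (2 ^ r : ℕ) • y = 0

/-- the family of the curves `C_{j_i, e_i}` is good over `K = ℚ(√d_1, …, √d_r)`: the curves
`C_{j_i, e_i ∏_{t ∈ T} d_t}` over `ℚ`, which are the factors of the Weil restrictions of the `C_{j_i, e_i}` from
`K` to `ℚ`, have finitely many rational points and no element of order two in the Tate-Shafarevich
group -/
def Good {ι : Type} {r : ℕ} (d : Fin r → ℤ) (j : ι → Fin 3) (e : ι → ℤ) : Prop :=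
  ∀ i, ∀ T : Finset (Fin r), RankZeroShaTwo (j i) (e i * ∏ t ∈ T, d t)

/-- the proportions `η / 2`, `c / 2`, `137 η / 256` -/
noncomputable def delta : Fin 3 → ℝ :=
  ![(∏' i : ℕ, (1 - (1 / 2 : ℝ) ^ (i + 1))) / 2, (∏' i : ℕ, (1 - (1 / 2 : ℝ) ^ (2 * i + 1))) / 2,
    137 / 256 * ∏' i : ℕ, (1 - (1 / 2 : ℝ) ^ (i + 1))]

/-- the proportions `δ_S`, `S` a nonempty set of the indices `j` of the curves: `η / 2`, `c / 2`,
`137 η / 256` for one curve, `433 η c / 1728` for `S = {0, 1}`, `443 η / 3072` for `S = {0, 2}`,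
`2461 η c / 9216` for `S = {1, 2}`, `8065 η c / 110592` for all three -/
noncomputable def deltaS (S : Finset (Fin 3)) : ℝ :=
  if 1 ∈ S then
    if 0 ∈ S then
      (if 2 ∈ S then 8065 / 110592 else 433 / 1728) *
        ((∏' i : ℕ, (1 - (1 / 2 : ℝ) ^ (i + 1))) * ∏' i : ℕ, (1 - (1 / 2 : ℝ) ^ (2 * i + 1)))
    else if 2 ∈ S then
      2461 / 9216 *
        ((∏' i : ℕ, (1 - (1 / 2 : ℝ) ^ (i + 1))) * ∏' i : ℕ, (1 - (1 / 2 : ℝ) ^ (2 * i + 1)))
    else (∏' i : ℕ, (1 - (1 / 2 : ℝ) ^ (2 * i + 1))) / 2
  else
    (if 0 ∈ S then (if 2 ∈ S then 443 / 3072 else 1 / 2) else 137 / 256) *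
      ∏' i : ℕ, (1 - (1 / 2 : ℝ) ^ (i + 1))

open Classical in
/-- the number of the families `(e i)` of squarefree integers, `|e i| ≤ X`, with the property `P` -/
noncomputable def countFam {ι : Type} [Fintype ι] (P : (ι → ℤ) → Prop) (X : ℕ) : ℕ :=
  ((Fintype.piFinset fun _ : ι => Finset.Icc (-(X : ℤ)) X).filter fun e =>
    (∀ i, Squarefree (e i)) ∧ P e).card

/-- `D` is a fundamental discriminant (`1` included) -/
def Fund (D : ℤ) : Prop := (Squarefree D ∧ D % 4 = 1) ∨
  ∃ m : ℤ, D = 4 * m ∧ Squarefree m ∧ (m % 4 = 2 ∨ m % 4 = 3)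

open Classical in
/-- the number of the quadratic fields with a discriminant `D`, `|D| ≤ X`, which has the property `P` -/
noncomputable def countQuad (P : ℤ → Prop) (X : ℕ) : ℕ :=
  ((Finset.Icc (-(X : ℤ)) X).filter fun D => Fund D ∧ D ≠ 1 ∧ P D).card

/-- the local conditions on the quadratic field of discriminant `D` for the curve `C_j`: `3` is not
inert and `5` is not split for `X_0(15)`, `3` is not split and `7` is not inert for `X_0(21)`; the curve
of conductor `17` is not allowed -/
def Allowed : Fin 3 → ℤ → Prop :=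
  ![fun D => D % 3 ≠ 2 ∧ ¬ (D % 5 = 1 ∨ D % 5 = 4), fun _ => False,
    fun D => D % 3 ≠ 1 ∧ ¬ (D % 7 = 3 ∨ D % 7 = 5 ∨ D % 7 = 6)]

/-- the ideal class group of `ℚ(√D)` has no element of order four -/
def NoOrderFour (D : ℤ) : Prop :=
  ∀ (K : Type) [Field K] [NumberField K], Module.finrank ℚ K = 2 →
    (∃ s : K, s ^ 2 = (D : K)) →
    ∀ c : ClassGroup (NumberField.RingOfIntegers K), c ^ 4 = 1 → c ^ 2 = 1

/-- the class of the squarefree `n` with `n ≡ 23, 47 mod 60` -/
def Twist (n : ℕ) : Prop := Squarefree n ∧ (n % 60 = 23 ∨ n % 60 = 47)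

/-- the class of the squarefree `d` with `d ≡ 1, 49 mod 60` -/
def Disc (d : ℕ) : Prop := Squarefree d ∧ (d % 60 = 1 ∨ d % 60 = 49)

/-- up to a square `z` has the property `C` -/
def UpToSq (C : ℕ → Prop) (z : ℕ) : Prop := ∃ n k : ℕ, C n ∧ k ≠ 0 ∧ z = n * k ^ 2

/-- the family of the twists of `X_0(15)` by the `- e i` is good over `ℚ(√d_1, …, √d_r)` -/
def GoodN {ι : Type} {r : ℕ} (d : Fin r → ℕ) (e : ι → ℕ) : Prop :=
  Good (fun t => (d t : ℤ)) (fun _ => 0) fun i => -(e i : ℤ)

/-- the number of the different curves among the curves `C_{0, - e_i ∏_{t ∈ T} d_t}` over `ℚ`, that is of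
the different classes modulo squares of the numbers `e_i ∏_{t ∈ T} d_t` -/
noncomputable def curves {ι : Type} {r : ℕ} (d : Fin r → ℕ) (e : ι → ℕ) : ℕ :=
  Set.ncard {s : ℕ | Squarefree s ∧ ∃ i, ∃ T : Finset (Fin r), ∃ k : ℕ, k ≠ 0 ∧
    e i * ∏ t ∈ T, d t = s * k ^ 2}

/-- the limit `(1 - 1/2) (1 - 1/4) (1 - 1/8) ⋯` -/
noncomputable def eta : ℝ := ∏' i : ℕ, (1 - (1 / 2 : ℝ) ^ (i + 1))

open Classical in
/-- the number of the `m ≤ X` with the property `P` -/
noncomputable def count (P : ℕ → Prop) (X : ℕ) : ℕ := ((Finset.Icc 1 X).filter fun m => P m).card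

/-- among the numbers with the property `P`, those with the property `Q` have natural density `δ` -/
def HasDensity (P Q : ℕ → Prop) (δ : ℝ) : Prop :=
  Tendsto (fun X : ℕ => (count (fun m => P m ∧ Q m) X : ℝ) / (count P X : ℝ)) atTop (𝓝 δ)

/-- **The rank part of the Birch and Swinnerton-Dyer conjecture, hence the conjecture modulo 2, for
quadratic twists of three modular curves over multiquadratic fields.** -/
theorem result {ι : Type} [Fintype ι] [Nonempty ι] :
    -- rank and order zero, hence the congruence modulo 2, over all multiquadratic fields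
    (∀ (r : ℕ) (d : Fin r → ℤ), Independent d → ∀ (j : ι → Fin 3) (e : ι → ℤ), (∀ i, e i ≠ 0) →
      Good d j e → ∀ (K : Type) [Field K] [NumberField K], IsMultiquadratic d K →
        Module.finrank ℚ K = 2 ^ r ∧ ∀ i, RankPart (E K (j i) (e i)) r) ∧
    -- the proportion of the good families over `ℚ` among all families
    (∀ j : ι → Fin 3, Tendsto (fun X : ℕ =>
      (countFam (fun e : ι → ℤ => Good (Fin.elim0 : Fin 0 → ℤ) j e) X : ℝ) /
        (countFam (fun _ : ι → ℤ => True) X : ℝ)) atTop (nhds (∏ i, delta (j i)))) ∧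
    -- the proportion of the quadratic fields over which all the `C_{j_i}` are good
    (∀ j : ι → Fin 3, Tendsto (fun X : ℕ =>
      (countQuad (fun D => Good (fun _ : Fin 1 => D) j (fun _ => 1)) X : ℝ) /
        (countQuad (fun _ => True) X : ℝ)) atTop (nhds (deltaS (Finset.univ.image j)))) ∧
    -- `X_0(15)` and `X_0(21)` over imaginary quadratic fields: ideal classes of order four
    (∀ (j : ι → Fin 3) (D : ℤ), Fund D → D < 0 → (∀ i, Allowed (j i) D) →
      (Good (fun _ : Fin 1 => D) j (fun _ => 1) ↔ NoOrderFour D)) ∧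
    (∀ j : ι → Fin 3, (∀ i, j i ≠ 1) → Tendsto (fun X : ℕ =>
      (countQuad (fun D => (D < 0 ∧ ∀ i, Allowed (j i) D) ∧
        Good (fun _ : Fin 1 => D) j (fun _ => 1)) X : ℝ) /
        (countQuad (fun D => D < 0 ∧ ∀ i, Allowed (j i) D) X : ℝ)) atTop
      (nhds (∏' i : ℕ, (1 - (1 / 2 : ℝ) ^ (i + 1))))) ∧
    -- fixed field, fixed family of twists of `X_0(15)`, random twist; random extension of the field
    (∀ (r : ℕ) (d : Fin r → ℕ), (∀ t, Disc (d t)) →
      (∀ e : ι → ℕ, (∀ i, UpToSq Twist (e i)) →
        HasDensity Disc (fun D => GoodN d fun i => e i * D) (eta ^ curves d e)) ∧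
      (∀ e : ι → ℕ, (∀ i, UpToSq Disc (e i)) →
        HasDensity Twist (fun n => GoodN d fun i => e i * n) (eta ^ curves d e)) ∧
      (∀ e : ι → ℕ, (∀ i, UpToSq Twist (e i)) → GoodN d e →
        HasDensity Disc (fun D => GoodN (Fin.snoc d D : Fin (r + 1) → ℕ) e)
          (eta ^ curves d e))) ∧
    0.1443 < delta 0 ∧ delta 0 < 0.1445 ∧ 0.2096 < delta 1 ∧ delta 1 < 0.2098 ∧
      0.1544 < delta 2 ∧ delta 2 < 0.1547 := by
  obtain ⟨h1, h2, -, -, h5, h6, h7, h8⟩ := Pool.Agent.N970.AVP.mainM (ι := ι)
  exact ⟨h1, h2, fun j => Pool.Agent.N970.AVP.dens_prod Pool.Agent.N970.AVP.totF j, h5, h6, h7, h8⟩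

end Pool.Agent.Results.MP_413b36_nt.TwistsOverMultiquadraticFields
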